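import Pool.Agent.MP_666b32_lc.H56.Red

set_option autoImplicit false

namespace Pool.Agent.Results.MP_666b32_lc.NPHard

open Pool.Agent.MP_666b32_lc.H56

/-- K-COMPRESSIBILITY is NP-hard, already for `K = N - 3`: every language in NP has a polynomial-time
many-one reduction to it. An instance is a list of `N` distinct rationals and an integer `K`. -/
theorem result (L : N68a2faeb.DecisionProblem) (hL : L ∈ N68a2faeb.NP) :
    ∃ f : List Bool → List ℚ × ℕ, N68a2faeb.IsPolyTime f ∧ ∀ x : List Bool, (f x).1.Nodup ∧
      (f x).2 + 3 = (f x).1.length ∧ (L x = true ↔ Compressible (f x).1.toFinset (f x).2) :=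
  np_hard L hL

end Pool.Agent.Results.MP_666b32_lc.NPHard
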